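import Mathlib

set_option autoImplicit false

namespace Pool.Agent.Results.MP_a93e77_co.Circulant13

/-- `P` is an isomorphism from `G` onto its complement. -/
def IsIsoPerm {V : Type} (G : SimpleGraph V) (P : Equiv.Perm V) : Prop :=
  ∀ u v : V, u ≠ v → (G.Adj u v ↔ ¬ G.Adj (P u) (P v))

/-- The set `F(G)` of vertices fixed by some isomorphism-permutation. -/
def FSet {V : Type} (G : SimpleGraph V) : Set V :=
  {v | ∃ P : Equiv.Perm V, IsIsoPerm G P ∧ P v = v}

/-- The set `N(G)` of edges `uv` with `P u = v` or `P v = u` for some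
isomorphism-permutation `P`. -/
def NSet {V : Type} (G : SimpleGraph V) : Set (Sym2 V) :=
  {e | ∃ u v : V, e = s(u, v) ∧ G.Adj u v ∧
    ∃ P : Equiv.Perm V, IsIsoPerm G P ∧ (P u = v ∨ P v = u)}

/-- `G` is regular, every edge lies in the same number of triangles, and every two distinct
nonadjacent vertices have the same number of common neighbours. -/
def IsStronglyRegular {V : Type} (G : SimpleGraph V) : Prop :=
  (∃ d, ∀ v, (G.neighborSet v).ncard = d) ∧
  (∃ l, ∀ u v, G.Adj u v → (G.commonNeighbors u v).ncard = l) ∧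
  (∃ m, ∀ u v, u ≠ v → ¬ G.Adj u v → (G.commonNeighbors u v).ncard = m)

/-! ### The circulant graph on 13 vertices with connection set {1, 2, 4} up to sign -/

def conn (x : ZMod 13) : Bool :=
  decide (x = 1) || decide (x = 12) || decide (x = 2) || decide (x = 11) || decide (x = 4) ||
    decide (x = 9)

def C13 : SimpleGraph (ZMod 13) where
  Adj x y := conn (x - y) = true
  symm := ⟨by
    have : ∀ x y : ZMod 13, conn (x - y) = true → conn (y - x) = true := by decide +kernel
    exact this⟩
  loopless := ⟨by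
    have : ∀ x : ZMod 13, ¬ conn (x - x) = true := by decide +kernel
    exact this⟩

instance : DecidableRel C13.Adj := fun x y => inferInstanceAs (Decidable (conn (x - y) = true))

/-- the permutation `x ↦ 8 x + b` -/
def aff (b : ZMod 13) : Equiv.Perm (ZMod 13) where
  toFun x := 8 * x + b
  invFun x := 5 * (x - b)
  left_inv := by
    have : ∀ b x : ZMod 13, 5 * (8 * x + b - b) = x := by decide +kernel
    exact this b
  right_inv := by
    have : ∀ b x : ZMod 13, 8 * (5 * (x - b)) + b = x := by decide +kernel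
    exact this b

lemma aff_isIso (b : ZMod 13) : IsIsoPerm C13 (aff b) := by
  intro u v huv
  have key : ∀ d : ZMod 13, d ≠ 0 → (conn d = true ↔ ¬ conn (8 * d) = true) := by decide +kernel
  have h1 := key (u - v) (sub_ne_zero.2 huv)
  have h2 : aff b u - aff b v = 8 * (u - v) := by
    show 8 * u + b - (8 * v + b) = 8 * (u - v)
    ring
  show conn (u - v) = true ↔ ¬ conn (aff b u - aff b v) = true
  rw [h2]
  exact h1

lemma fset : FSet C13 = Set.univ := by
  ext v
  simp only [Set.mem_univ, iff_true]
  refine ⟨aff (-7 * v), aff_isIso _, ?_⟩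
  show 8 * v + -7 * v = v
  ring

lemma nset : NSet C13 = C13.edgeSet := by
  ext e
  induction e using Sym2.ind with
  | _ u v =>
    rw [SimpleGraph.mem_edgeSet]
    constructor
    · rintro ⟨a, b, hab, hadj, -⟩
      rw [← SimpleGraph.mem_edgeSet, hab, SimpleGraph.mem_edgeSet]
      exact hadj
    · intro h
      refine ⟨u, v, rfl, h, aff (v - 8 * u), aff_isIso _, Or.inl ?_⟩
      show 8 * u + (v - 8 * u) = v
      ring

lemma not_srg : ¬ IsStronglyRegular C13 := by
  rintro ⟨-, ⟨l, hl⟩, -⟩
  have h1 := hl 0 1 (by decide +kernel)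
  have h2 := hl 0 2 (by decide +kernel)
  have h3 := hl 0 4 (by decide +kernel)
  rw [Set.ncard_eq_toFinset_card'] at h1 h2 h3
  rw [← h1] at h2 h3
  revert h2 h3
  decide +kernel

lemma regular : ∀ v, (C13.neighborSet v).ncard = 6 := by
  intro v
  rw [Set.ncard_eq_toFinset_card']
  revert v
  decide +kernel

/-- There is a regular self-complementary graph that is not strongly regular although
`F(G) = V(G)` and `N(G) = E(G)`. -/
theorem result : ∃ (V : Type) (_ : Fintype V) (G : SimpleGraph V),
    (∃ d, ∀ v, (G.neighborSet v).ncard = d) ∧ Nonempty (G ≃g Gᶜ) ∧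
    ¬ IsStronglyRegular G ∧ FSet G = Set.univ ∧ NSet G = G.edgeSet := by
  refine ⟨ZMod 13, inferInstance, C13, ⟨6, regular⟩, ⟨⟨aff 0, ?_⟩⟩, not_srg, fset, nset⟩
  intro a b
  rw [SimpleGraph.compl_adj]
  by_cases hab : a = b
  · subst hab
    simp
  · have h := aff_isIso 0 a b hab
    have hne : aff 0 a ≠ aff 0 b := fun h => hab ((aff 0).injective h)
    constructor
    · rintro ⟨-, h2⟩
      exact h.2 h2
    · intro h2
      exact ⟨hne, h.1 h2⟩

end Pool.Agent.Results.MP_a93e77_co.Circulant13
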